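import Mathlib
import Pool.Agent.Helper835.TS.Def
import Pool.Agent.Helper835.TS.Zdef
import Pool.Agent.Helper835.TS.Zfc
import Pool.Agent.Helper835.TS.Forced
import Pool.Agent.Helper835.TS.Triv

/-!
# A separable, hereditarily normal compact space with uncountable tightness, consistently

`Om` is the well-ordered set of order type `ω₁`. `IsTower T` (from `TS.Zdef`) is the combinatorial
principle: the sets `T a ⊆ ℕ`, `a` in `ω₁`, form a strictly increasing tower modulo finite sets
such that disjoint open subsets of `ω₁` can be separated along the tower. `TowerHolds P` (from
`TS.Def`) is the sentence of the forcing language of `P` which says that such a tower exists in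
the extension.
-/

set_option autoImplicit false

open Set
open Pool.Agent.Helper292.ForceCH (Om OmegaOnePreserved)
open Pool.Agent.Helper835.TS

universe u

namespace Pool.Agent.Results.MP_5c1192_gt.ForcedCounterexample

/-- There is a separable, hereditarily normal, compact Hausdorff space which is not countably
tight: some point `x` is in the closure of some set `A`, but not in the closure of any countable
subset of `A`. -/
def Counterexample : Prop :=
  ∃ (X : Type) (_ : TopologicalSpace X), CompactSpace X ∧ T2Space X ∧ T5Space X ∧
    (∀ Y : Set X, NormalSpace Y) ∧ TopologicalSpace.SeparableSpace X ∧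
    ∃ (A : Set X) (x : X), x ∈ closure A ∧ ∀ B : Set X, B ⊆ A → B.Countable → x ∉ closure B

/-- (1) Some forcing notion with the countable chain condition (which hence preserves `ω₁`) forces
that there is a tower as in `IsTower`. (2) In ZFC, the existence of such a tower implies that there
is a separable, hereditarily normal, compact Hausdorff space which is not countably tight.
(3) Sanity check: for the one-point forcing notion the sentence `TowerHolds` of the forcing
language is the plain statement that there is a tower. -/
theorem result :
    (∃ (P : Type) (_ : Preorder P), Nonempty P ∧ CCC P ∧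
      ∀ p : P, p ∈ OmegaOnePreserved P ∧ p ∈ TowerHolds P) ∧
    ((∃ T : Om → Set ℕ, IsTower T) → Counterexample) ∧
    ((∀ p : Unit, p ∈ TowerHolds Unit) ↔ ∃ T : Om → Set ℕ, IsTower T) := by
  refine ⟨⟨Pc, inferInstance, inferInstance, ccc, fun p =>
    ⟨omegaOne_of_ccc ccc p, tower_forced p⟩⟩, ?_, ?_⟩
  · rintro ⟨T, hT⟩
    haveI h1 : CompactSpace (Z T) := isCompact_iff_compactSpace.1 (isClosed_Z hT).isCompact
    haveI h2 : CompletelyNormalSpace (Z T) := completelyNormal_Z hT
    haveI h3 : T5Space (Z T) := { }
    exact ⟨Z T, inferInstance, h1, inferInstance, h3, fun Y => inferInstance, separable_Z hT,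
      not_tight hT⟩
  · rw [← u_tower]
    exact ⟨fun h => h (), fun h p => h⟩

end Pool.Agent.Results.MP_5c1192_gt.ForcedCounterexample
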